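import Pool.Agent.W544.FF.Defs

/-! # The decomposition of the invariants of the special orthogonal groups -/

set_option autoImplicit false

open Matrix Finset Module

namespace Pool.Agent.W654.FF

open Pool.Agent.W544.PG Pool.Agent.W544.FF

/-! ### pull-back -/

theorem pull_mul {R : Type} [CommRing R] {ι : Type} [Fintype ι] [DecidableEq ι] {k : ℕ}
    (A B : Matrix ι ι R) (s : (Fin k → ι) → R) : pull (A * B) s = pull B (pull A s) := by
  funext J
  unfold pull
  simp only [Matrix.mul_apply, Finset.prod_univ_sum, Finset.mul_sum, Finset.sum_mul]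
  rw [Finset.sum_comm]
  simp only [Fintype.piFinset_univ]
  refine Finset.sum_congr rfl (fun L _ => Finset.sum_congr rfl (fun K _ => ?_))
  rw [Finset.prod_mul_distrib]
  ring

theorem pull_one {R : Type} [CommRing R] {ι : Type} [Fintype ι] [DecidableEq ι] {k : ℕ}
    (s : (Fin k → ι) → R) : pull (1 : Matrix ι ι R) s = s := by
  funext J
  unfold pull
  rw [Finset.sum_eq_single J]
  · simp
  · intro K _ hK
    obtain ⟨j, hj⟩ := Function.ne_iff.1 hK
    rw [Finset.prod_eq_zero (f := fun j => (1 : Matrix ι ι R) (K j) (J j)) (Finset.mem_univ j)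
      (Matrix.one_apply_ne hj), zero_mul]
  · intro h
    exact absurd (Finset.mem_univ _) h

theorem pull_add {R : Type} [CommRing R] {ι : Type} [Fintype ι] [DecidableEq ι] {k : ℕ}
    (A : Matrix ι ι R) (s t : (Fin k → ι) → R) : pull A (s + t) = pull A s + pull A t := by
  funext J
  simp only [pull, Pi.add_apply, mul_add, Finset.sum_add_distrib]

theorem pull_sub {R : Type} [CommRing R] {ι : Type} [Fintype ι] [DecidableEq ι] {k : ℕ}
    (A : Matrix ι ι R) (s t : (Fin k → ι) → R) : pull A (s - t) = pull A s - pull A t := by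
  funext J
  simp only [pull, Pi.sub_apply, mul_sub, Finset.sum_sub_distrib]

theorem pull_smul {R : Type} [CommRing R] {ι : Type} [Fintype ι] [DecidableEq ι] {k : ℕ}
    (A : Matrix ι ι R) (a : R) (s : (Fin k → ι) → R) : pull A (a • s) = a • pull A s := by
  funext J
  simp only [pull, Pi.smul_apply, smul_eq_mul, Finset.mul_sum]
  refine Finset.sum_congr rfl (fun K _ => ?_)
  ring

theorem rC_mul {n : ℕ} (A B : Matrix (Fin n) (Fin n) ℝ) : rC (A * B) = rC A * rC B := by
  unfold rC
  ext a b
  simp only [Matrix.mul_apply, Matrix.map_apply]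
  push_cast
  rfl

theorem rC_one {n : ℕ} : rC (1 : Matrix (Fin n) (Fin n) ℝ) = 1 := by
  unfold rC
  ext a b
  simp only [Matrix.map_apply, Matrix.one_apply]
  split_ifs <;> simp

/-! ### blocks -/

variable {n r : ℕ} {c : Fin n → Fin r}

theorem BD_mul {A B : Matrix (Fin n) (Fin n) ℝ} (hA : BD c A) (hB : BD c B) : BD c (A * B) := by
  intro a b hab
  rw [Matrix.mul_apply]
  refine Finset.sum_eq_zero (fun l _ => ?_)
  by_cases h : c a = c l
  · rw [hB l b (fun h' => hab (h.trans h')), mul_zero]
  · rw [hA a l h, zero_mul]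

theorem bl_in {A : Matrix (Fin n) (Fin n) ℝ} {i : Fin r} {a b : Fin n} (ha : c a = i)
    (hb : c b = i) : bl c i A a b = A a b := if_pos ⟨ha, hb⟩

theorem bl_left {A : Matrix (Fin n) (Fin n) ℝ} {i : Fin r} {a b : Fin n} (ha : c a ≠ i) :
    bl c i A a b = (1 : Matrix (Fin n) (Fin n) ℝ) a b := by
  rw [Matrix.one_apply]
  exact if_neg (fun h => ha h.1)

theorem bl_right {A : Matrix (Fin n) (Fin n) ℝ} {i : Fin r} {a b : Fin n} (hb : c b ≠ i) :
    bl c i A a b = (1 : Matrix (Fin n) (Fin n) ℝ) a b := by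
  rw [Matrix.one_apply]
  exact if_neg (fun h => hb h.2)

theorem bl_mul {A B : Matrix (Fin n) (Fin n) ℝ} (hA : BD c A) (i : Fin r) :
    bl c i (A * B) = bl c i A * bl c i B := by
  ext a b
  rw [Matrix.mul_apply]
  by_cases ha : c a = i
  · by_cases hb : c b = i
    · rw [bl_in ha hb, Matrix.mul_apply]
      refine Finset.sum_congr rfl (fun l _ => ?_)
      by_cases hl : c l = i
      · rw [bl_in ha hl, bl_in hl hb]
      · have h1 : a ≠ l := fun h => hl (h ▸ ha)
        have h2 : c a ≠ c l := fun h => hl (h ▸ ha)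
        rw [hA a l h2, bl_right hl, Matrix.one_apply_ne h1, zero_mul, zero_mul]
    · rw [bl_right hb]
      rw [Finset.sum_eq_single b]
      · rw [bl_right hb, bl_right hb, Matrix.one_apply_eq, mul_one]
      · intro l _ hl
        rw [bl_right (A := B) hb, Matrix.one_apply_ne hl, mul_zero]
      · intro h
        exact absurd (Finset.mem_univ _) h
  · rw [bl_left ha]
    rw [Finset.sum_eq_single a]
    · rw [bl_left ha, bl_left ha, Matrix.one_apply_eq, one_mul]
    · intro l _ hl
      rw [bl_left (A := A) ha, Matrix.one_apply_ne (Ne.symm hl), zero_mul]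
    · intro h
      exact absurd (Finset.mem_univ _) h

theorem bl_one (i : Fin r) : bl c i (1 : Matrix (Fin n) (Fin n) ℝ) = 1 := by
  ext a b
  by_cases ha : c a = i
  · by_cases hb : c b = i
    · rw [bl_in ha hb]
    · rw [bl_right hb]
  · rw [bl_left ha]

theorem bl_transpose (i : Fin r) (A : Matrix (Fin n) (Fin n) ℝ) : bl c i Aᵀ = (bl c i A)ᵀ := by
  ext a b
  rw [Matrix.transpose_apply]
  by_cases ha : c a = i
  · by_cases hb : c b = i
    · rw [bl_in ha hb, bl_in hb ha, Matrix.transpose_apply]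
    · rw [bl_right hb, bl_left hb, Matrix.one_apply, Matrix.one_apply]
      simp only [eq_comm]
  · rw [bl_left ha, bl_right ha, Matrix.one_apply, Matrix.one_apply]
    simp only [eq_comm]

/-- the determinant of a block -/
noncomputable def D (c : Fin n → Fin r) (i : Fin r) (R : Matrix (Fin n) (Fin n) ℝ) : ℝ :=
  (bl c i R).det

theorem D_mul {A B : Matrix (Fin n) (Fin n) ℝ} (hA : BD c A) (i : Fin r) :
    D c i (A * B) = D c i A * D c i B := by
  unfold D
  rw [bl_mul hA, Matrix.det_mul]

theorem BD_transpose {A : Matrix (Fin n) (Fin n) ℝ} (hA : BD c A) : BD c Aᵀ :=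
  fun a b h => hA b a (Ne.symm h)

theorem D_sq {A : Matrix (Fin n) (Fin n) ℝ} (hA : BD c A) (h : Aᵀ * A = 1) (i : Fin r) :
    D c i A = 1 ∨ D c i A = -1 := by
  have h1 : D c i A * D c i A = 1 := by
    have h2 := D_mul (B := A) (BD_transpose hA) i
    rw [h] at h2
    have h3 : D c i (1 : Matrix (Fin n) (Fin n) ℝ) = 1 := by
      unfold D
      rw [bl_one, Matrix.det_one]
    have h4 : D c i Aᵀ = D c i A := by
      unfold D
      rw [bl_transpose, Matrix.det_transpose]
    rw [h3, h4] at h2
    exact h2.symm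
  exact mul_self_eq_one_iff.1 h1

/-- a reflection -/
def rho (n : ℕ) (a : Fin n) : Matrix (Fin n) (Fin n) ℝ :=
  Matrix.diagonal (fun b => if b = a then -1 else 1)

theorem rho_mul (a : Fin n) : rho n a * rho n a = 1 := by
  unfold rho
  rw [Matrix.diagonal_mul_diagonal, ← Matrix.diagonal_one]
  congr 1
  funext b
  split_ifs <;> norm_num

theorem rho_orth (a : Fin n) : (rho n a)ᵀ * rho n a = 1 := by
  have : (rho n a)ᵀ = rho n a := by
    unfold rho
    rw [Matrix.diagonal_transpose]
  rw [this, rho_mul]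

theorem rho_BD (a : Fin n) : BD c (rho n a) := by
  intro x y hxy
  unfold rho
  exact Matrix.diagonal_apply_ne _ (fun h => hxy (by rw [h]))

theorem D_rho (a : Fin n) (i : Fin r) : D c i (rho n a) = if c a = i then -1 else 1 := by
  have h : bl c i (rho n a) = Matrix.diagonal
      (fun b => if c b = i then (if b = a then (-1 : ℝ) else 1) else 1) := by
    ext x y
    simp only [bl, rho, Matrix.of_apply, Matrix.diagonal_apply]
    by_cases hxy : x = y
    · subst hxy
      by_cases hx : c x = i
      · simp [hx]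
      · simp [hx]
    · simp [hxy]
  unfold D
  rw [h, Matrix.det_diagonal]
  rw [Finset.prod_eq_single a]
  · simp
  · intro b _ hb
    simp [hb]
  · intro h
    exact absurd (Finset.mem_univ _) h

/-- block diagonal orthogonal matrices -/
def Gam (c : Fin n → Fin r) (R : Matrix (Fin n) (Fin n) ℝ) : Prop := Rᵀ * R = 1 ∧ BD c R

theorem Gam.mul {A B : Matrix (Fin n) (Fin n) ℝ} (hA : Gam c A) (hB : Gam c B) :
    Gam c (A * B) := by
  refine ⟨?_, BD_mul hA.2 hB.2⟩
  rw [Matrix.transpose_mul, Matrix.mul_assoc, ← Matrix.mul_assoc Aᵀ, hA.1, Matrix.one_mul, hB.1]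

theorem Gam.rho (a : Fin n) : Gam c (rho n a) := ⟨rho_orth a, rho_BD a⟩

theorem chr_mul (S : Finset (Fin r)) {A B : Matrix (Fin n) (Fin n) ℝ} (hA : BD c A) :
    chr c S (A * B) = chr c S A * chr c S B := by
  unfold chr
  rw [← Finset.prod_mul_distrib]
  exact Finset.prod_congr rfl (fun i _ => D_mul hA i)

theorem chr_rho (S : Finset (Fin r)) (a : Fin n) (h : c a ∉ S) : chr c S (rho n a) = 1 := by
  unfold chr
  refine Finset.prod_eq_one (fun i hi => ?_)
  have hne : c a ≠ i := fun h' => h (by rw [h']; exact hi)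
  have := D_rho (c := c) a i
  rw [if_neg hne] at this
  exact this

/-- equivariance for the matrices with determinants `1` of the blocks in `U` -/
def Eqv {k : ℕ} (c : Fin n → Fin r) (U S : Finset (Fin r)) (t : (Fin k → Fin n) → ℂ) : Prop :=
  ∀ R : Matrix (Fin n) (Fin n) ℝ, Gam c R → (∀ j ∈ U, D c j R = 1) →
    pull (rC R) t = ((chr c S R : ℝ) : ℂ) • t

/-- the step of the induction -/
theorem step {k : ℕ} (U S : Finset (Fin r)) (a : Fin n) (hS : c a ∉ S)
    (t : (Fin k → Fin n) → ℂ) (ht : Eqv c (insert (c a) U) S t) :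
    Eqv c U S ((1 / 2 : ℂ) • (t + pull (rC (rho n a)) t)) ∧
    Eqv c U (insert (c a) S) ((1 / 2 : ℂ) • (t - pull (rC (rho n a)) t)) := by
  set i : Fin r := c a with hi
  set ρ : Matrix (Fin n) (Fin n) ℝ := rho n a with hρ
  set t' : (Fin k → Fin n) → ℂ := pull (rC ρ) t with ht'
  have hGρ : Gam c ρ := Gam.rho a
  have hρρ : ρ * ρ = 1 := rho_mul a
  have hDi : D c i ρ = -1 := by rw [hρ, D_rho, if_pos hi.symm]
  have hDj : ∀ j, j ≠ i → D c j ρ = 1 := fun j hj => by
    rw [hρ, D_rho, if_neg (fun h => hj (h.symm.trans hi.symm))]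
  have hSρ : chr c S ρ = 1 := chr_rho S a hS
  have htt : pull (rC ρ) t' = t := by
    rw [ht', ← pull_mul, ← rC_mul, hρρ, rC_one, pull_one]
  -- matrices with determinant one of the block
  have hA : ∀ R, Gam c R → (∀ j ∈ U, D c j R = 1) → D c i R = 1 →
      pull (rC R) t' = ((chr c S R : ℝ) : ℂ) • t' := by
    intro R hR hU h1
    have e1 : ρ * R = (ρ * R * ρ) * ρ := by
      rw [Matrix.mul_assoc (ρ * R), hρρ, Matrix.mul_one]
    have e2 : pull (rC R) t' = pull (rC ρ) (pull (rC (ρ * R * ρ)) t) := by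
      rw [ht', ← pull_mul, ← pull_mul, ← rC_mul, ← rC_mul]
      exact congrArg (fun X => pull (rC X) t) e1
    have e3 : chr c S (ρ * R * ρ) = chr c S R := by
      rw [chr_mul S (BD_mul hGρ.2 hR.2), chr_mul S hGρ.2, hSρ, one_mul, mul_one]
    have e4 : ∀ j ∈ insert i U, D c j (ρ * R * ρ) = 1 := by
      intro j hj
      rw [D_mul (BD_mul hGρ.2 hR.2), D_mul hGρ.2]
      have e5 : D c j ρ * D c j ρ = 1 := by
        by_cases h : j = i
        · rw [h, hDi]; norm_num
        · rw [hDj j h]; norm_num
      have e6 : D c j R = 1 := by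
        rcases Finset.mem_insert.1 hj with h | h
        · rw [h]; exact h1
        · exact hU j h
      rw [e6, mul_one, e5]
    rw [e2, ht _ ((hGρ.mul hR).mul hGρ) e4, e3, pull_smul]
  have hchr : ∀ R, chr c S (ρ * R) = chr c S R := fun R => by
    rw [chr_mul S hGρ.2, hSρ, one_mul]
  have hBD : ∀ R, Gam c R → (∀ j ∈ U, D c j R = 1) → D c i R = -1 →
      ∀ j ∈ insert i U, D c j (ρ * R) = 1 := by
    intro R hR hU h1 j hj
    rw [D_mul hGρ.2]
    by_cases h : j = i
    · rw [h, hDi, h1]; norm_num
    · rw [hDj j h, one_mul]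
      rcases Finset.mem_insert.1 hj with h' | h'
      · exact absurd h' h
      · exact hU j h'
  -- matrices with determinant minus one of the block
  have hB1 : ∀ R, Gam c R → (∀ j ∈ U, D c j R = 1) → D c i R = -1 →
      pull (rC R) t' = ((chr c S R : ℝ) : ℂ) • t := by
    intro R hR hU h1
    rw [ht', ← pull_mul, ← rC_mul, ht _ (hGρ.mul hR) (hBD R hR hU h1), hchr]
  have hB2 : ∀ R, Gam c R → (∀ j ∈ U, D c j R = 1) → D c i R = -1 →
      pull (rC R) t = ((chr c S R : ℝ) : ℂ) • t' := by
    intro R hR hU h1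
    have h2 := hBD R hR hU h1
    have h3 : pull (rC R) t = pull (rC (ρ * R)) t' := by
      rw [rC_mul, pull_mul, htt]
    rw [h3, hA _ (hGρ.mul hR)
      (fun j hj => h2 j (Finset.mem_insert_of_mem hj)) (h2 i (Finset.mem_insert_self _ _)), hchr]
  have hins : ∀ R, chr c (insert i S) R = D c i R * chr c S R := by
    intro R
    unfold chr D
    rw [Finset.prod_insert hS]
  constructor
  · intro R hR hU
    rcases D_sq hR.2 hR.1 i with h1 | h1
    · rw [pull_smul, pull_add, hA R hR hU h1, ht R hR (fun j hj => by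
        rcases Finset.mem_insert.1 hj with h | h
        · rw [h]; exact h1
        · exact hU j h), ← smul_add, smul_comm]
    · rw [pull_smul, pull_add, hB1 R hR hU h1, hB2 R hR hU h1, ← smul_add, smul_comm, add_comm t']
  · intro R hR hU
    rw [hins]
    rcases D_sq hR.2 hR.1 i with h1 | h1
    · rw [h1, one_mul, pull_smul, pull_sub, hA R hR hU h1, ht R hR (fun j hj => by
        rcases Finset.mem_insert.1 hj with h | h
        · rw [h]; exact h1
        · exact hU j h), ← smul_sub, smul_comm]
    · rw [h1, pull_smul, pull_sub, hB1 R hR hU h1, hB2 R hR hU h1, ← smul_sub, smul_comm]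
      funext J
      simp only [Pi.smul_apply, Pi.sub_apply, smul_eq_mul]
      push_cast
      ring

/-- an empty colour -/
theorem D_empty (i : Fin r) (h : ∀ a, c a ≠ i) (R : Matrix (Fin n) (Fin n) ℝ) : D c i R = 1 := by
  have : bl c i R = 1 := by
    ext a b
    simp only [bl, Matrix.of_apply]
    rw [if_neg (fun h' => h a h'.1), Matrix.one_apply]
  unfold D
  rw [this, Matrix.det_one]

theorem main_ind {k : ℕ} (U : Finset (Fin r)) : ∀ (S : Finset (Fin r)) (t : (Fin k → Fin n) → ℂ),
    Disjoint S U → Eqv c U S t →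
    t ∈ Submodule.span ℂ {u : (Fin k → Fin n) → ℂ | ∃ S : Finset (Fin r),
    ∀ R : Matrix (Fin n) (Fin n) ℝ, Rᵀ * R = 1 → BD c R →
      pull (rC R) u = ((chr c S R : ℝ) : ℂ) • u} := by
  classical
  induction U using Finset.induction_on with
  | empty =>
    intro S t _ ht
    refine Submodule.subset_span ⟨S, fun R h1 h2 => ht R ⟨h1, h2⟩ (fun j hj => ?_)⟩
    exact absurd hj (Finset.notMem_empty j)
  | insert i U hiU ih =>
    intro S t hdis ht
    have hiS : i ∉ S := fun h => Finset.disjoint_left.1 hdis h (Finset.mem_insert_self _ _)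
    have hSU : Disjoint S U := hdis.mono_right (Finset.subset_insert _ _)
    by_cases hne : ∃ a, c a = i
    · obtain ⟨a, rfl⟩ := hne
      obtain ⟨h1, h2⟩ := step U S a hiS t ht
      have h3 := ih S _ hSU h1
      have h4 := ih (insert (c a) S) _ (by
        rw [Finset.disjoint_insert_left]
        exact ⟨hiU, hSU⟩) h2
      have h5 := Submodule.add_mem _ h3 h4
      have h6 : (1 / 2 : ℂ) • (t + pull (rC (rho n a)) t) +
          (1 / 2 : ℂ) • (t - pull (rC (rho n a)) t) = t := by
        funext J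
        simp only [Pi.smul_apply, Pi.sub_apply, Pi.add_apply, smul_eq_mul]
        ring
      rw [h6] at h5
      exact h5
    · push Not at hne
      refine ih S t hSU (fun R hR hU => ht R hR (fun j hj => ?_))
      rcases Finset.mem_insert.1 hj with h | h
      · rw [h]; exact D_empty i hne R
      · exact hU j h

theorem spl : S_spl := by
  intro n r k c t ht
  refine main_ind Finset.univ ∅ t (Finset.disjoint_empty_left _) ?_
  intro R hR hU
  rw [ht R hR.1 hR.2 (fun i => hU i (Finset.mem_univ i))]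
  unfold chr
  simp

end Pool.Agent.W654.FF
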