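import Pool.Agent.W544.FF.Defs2

/-! # The support and the antisymmetry of the generators -/

set_option autoImplicit false

open Matrix Finset Module

namespace Pool.Agent.W654.FF.Gsp

open Pool.Agent.W544.PG Pool.Agent.W544.FF

section

variable {K : Type} [Field K] {n r s m : ℕ} {c : Fin n → Fin r} {d : Fin s → Fin r}
  {a : Fin m → Fin r} {Q : Matrix (Fin n) (Fin n) K} {σ : Fin m → Fin m} {ν : Fin m → Fin s → K}
  {S : Finset (Fin r)} {g : {b : Fin n // c b ∈ S} → Fin m} {J : Fin m → Fin s ⊕ Fin n}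

/-- the slots of the algebraic classes -/
theorem caseA (hν : ∀ j b, ν j b ≠ 0 → d b = a j) (j : Fin m)
    (h : Sum.elim (ν j) (fun _ => 0) (J j) ≠ 0) :
    (∃ b, J j = Sum.inl b) ∧ Sum.elim d c (J j) = a j := by
  rcases hJ : J j with b | b
  · rw [hJ] at h
    refine ⟨⟨b, rfl⟩, ?_⟩
    simpa using hν j b (by simpa using h)
  · rw [hJ] at h
    exact absurd rfl h

/-- the slots of the pairs -/
theorem caseB (hBD : BD c Q) (ha : ∀ j, a (σ j) = a j) (j : Fin m)
    (h : (if Sum.elim d c (J j) = a j then Matrix.fromBlocks 0 0 0 Q (J j) (J (σ j)) else 0) ≠ 0) :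
    (∃ b, J j = Sum.inr b) ∧ (∃ b, J (σ j) = Sum.inr b) ∧ Sum.elim d c (J j) = a j ∧
      Sum.elim d c (J (σ j)) = a (σ j) := by
  by_cases h1 : Sum.elim d c (J j) = a j
  · rw [if_pos h1] at h
    rcases hJ : J j with x | x
    · rw [hJ] at h
      rcases hJ' : J (σ j) with y | y
      · rw [hJ'] at h
        exact absurd rfl h
      · rw [hJ'] at h
        exact absurd rfl h
    · rcases hJ' : J (σ j) with y | y
      · rw [hJ, hJ'] at h
        exact absurd rfl h
      · rw [hJ, hJ'] at h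
        rw [Matrix.fromBlocks_apply₂₂] at h
        have hc : c x = c y := by
          by_contra hne
          exact h (hBD x y hne)
        rw [hJ] at h1
        simp only [Sum.elim_inr] at h1
        refine ⟨⟨x, rfl⟩, ⟨y, rfl⟩, ?_, ?_⟩
        · simpa using h1
        · rw [ha j, ← h1, hc]
          rfl
  · rw [if_neg h1] at h
    exact absurd rfl h

/-- the slots of the determinants -/
theorem caseD (h : (dt c S Sum.inr g J : K) ≠ 0) (b : {b : Fin n // c b ∈ S}) :
    ∃ y : Fin n, c y = c b.1 ∧ J (g b) = Sum.inr y := by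
  by_contra hne
  push Not at hne
  apply h
  unfold dt
  refine Matrix.det_eq_zero_of_row_eq_zero b (fun y => ?_)
  rw [Matrix.of_apply, if_neg]
  rintro ⟨h1, h2⟩
  exact hne y.1 h1 h2

theorem dt_swap (hg : Function.Injective g) (b b' : {b : Fin n // c b ∈ S}) (hb : b ≠ b')
    (hc : c b.1 = c b'.1) :
    (dt c S Sum.inr g (fun j => J (Equiv.swap (g b) (g b') j)) : K) = -dt c S Sum.inr g J := by
  unfold dt
  have h1 : (Matrix.of fun x y : {b : Fin n // c b ∈ S} =>
      if c y.1 = c x.1 ∧ J (Equiv.swap (g b) (g b') (g x)) = Sum.inr y.1 then (1 : K) else 0) =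
      (Matrix.of fun x y : {b : Fin n // c b ∈ S} =>
      if c y.1 = c x.1 ∧ J (g x) = Sum.inr y.1 then (1 : K) else 0).submatrix
        (Equiv.swap b b') id := by
    ext x y
    rw [Matrix.submatrix_apply, Matrix.of_apply, Matrix.of_apply, hg.swap_apply]
    have h2 : c (Equiv.swap b b' x).1 = c x.1 := by
      by_cases hx : x = b
      · rw [hx, Equiv.swap_apply_left, hc]
      · by_cases hx' : x = b'
        · rw [hx', Equiv.swap_apply_right, hc]
        · rw [Equiv.swap_apply_of_ne_of_ne hx hx']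
    rw [h2]
    rfl
  rw [h1, Matrix.det_permute, Equiv.Perm.sign_swap hb]
  simp

end

theorem gsp : S_gsp := by
  intro K _ n r s m c d a Q σ ν S g hBD hOk J hJ
  obtain ⟨hσ, ha, hν, hg, hσg, hag⟩ := hOk
  unfold gnr at hJ
  have h12 := left_ne_zero_of_mul hJ
  have h3 := right_ne_zero_of_mul hJ
  have h1 := Finset.prod_ne_zero_iff.1 (left_ne_zero_of_mul h12)
  have h2 := Finset.prod_ne_zero_iff.1 (right_ne_zero_of_mul h12)
  have hA : ∀ j, σ j = j → (∀ b, g b ≠ j) →
      (∃ b, J j = Sum.inl b) ∧ Sum.elim d c (J j) = a j := fun j e1 e2 =>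
    caseA hν j (h1 j (Finset.mem_filter.2 ⟨Finset.mem_univ _, e1, e2⟩))
  have hB : ∀ j, j < σ j → (∃ b, J j = Sum.inr b) ∧ (∃ b, J (σ j) = Sum.inr b) ∧
      Sum.elim d c (J j) = a j ∧ Sum.elim d c (J (σ j)) = a (σ j) := fun j e1 =>
    caseB hBD ha j (h2 j (Finset.mem_filter.2 ⟨Finset.mem_univ _, e1⟩))
  have hBC : ∀ j, σ j ≠ j → (∃ b, J j = Sum.inr b) ∧ Sum.elim d c (J j) = a j := by
    intro j hj
    rcases lt_or_gt_of_ne hj with h | h
    · have := hB (σ j) (by rw [hσ]; exact h)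
      rw [hσ] at this
      exact ⟨this.2.1, this.2.2.2⟩
    · have := hB j h
      exact ⟨this.1, this.2.2.1⟩
  have hD : ∀ b, (∃ y, J (g b) = Sum.inr y) ∧ Sum.elim d c (J (g b)) = a (g b) := by
    intro b
    obtain ⟨y, hy, hJy⟩ := caseD h3 b
    refine ⟨⟨y, hJy⟩, ?_⟩
    rw [hJy, hag b]
    exact hy
  constructor
  · intro j
    by_cases e1 : σ j = j
    · by_cases e2 : ∀ b, g b ≠ j
      · exact (hA j e1 e2).2
      · push Not at e2
        obtain ⟨b, rfl⟩ := e2
        exact (hD b).2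
    · exact (hBC j e1).2
  · intro j
    constructor
    · rintro ⟨b, hb⟩
      by_contra hne
      push Not at hne
      obtain ⟨⟨b', hb'⟩, _⟩ := hA j hne.1 hne.2
      rw [hb'] at hb
      exact absurd hb (by simp)
    · rintro (h | ⟨b, rfl⟩)
      · exact (hBC j h).1
      · exact (hD b).1

theorem gan : S_gan := by
  intro K _ n r s m c d a Q σ ν S g hOk b b' hb hc J
  obtain ⟨hσ, ha, hν, hg, hσg, hag⟩ := hOk
  unfold gnr
  rw [dt_swap hg b b' hb hc]
  have hfix : ∀ j, j ≠ g b → j ≠ g b' → Equiv.swap (g b) (g b') j = j := fun j h1 h2 =>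
    Equiv.swap_apply_of_ne_of_ne h1 h2
  have e1 : (∏ j with σ j = j ∧ ∀ b, g b ≠ j,
      Sum.elim (ν j) (fun _ => 0) (J (Equiv.swap (g b) (g b') j))) =
      ∏ j with σ j = j ∧ ∀ b, g b ≠ j, Sum.elim (ν j) (fun _ => 0) (J j) := by
    refine Finset.prod_congr rfl (fun j hj => ?_)
    have hj' := (Finset.mem_filter.1 hj).2
    rw [hfix j (Ne.symm (hj'.2 b)) (Ne.symm (hj'.2 b'))]
  have e2 : (∏ j with j < σ j,
      if Sum.elim d c (J (Equiv.swap (g b) (g b') j)) = a j then
        Matrix.fromBlocks 0 0 0 Q (J (Equiv.swap (g b) (g b') j))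
          (J (Equiv.swap (g b) (g b') (σ j))) else 0) =
      ∏ j with j < σ j,
      if Sum.elim d c (J j) = a j then Matrix.fromBlocks 0 0 0 Q (J j) (J (σ j)) else 0 := by
    refine Finset.prod_congr rfl (fun j hj => ?_)
    have hj' := (Finset.mem_filter.1 hj).2
    have hne : ∀ x, j ≠ g x := fun x h => by
      rw [h, hσg x] at hj'
      exact lt_irrefl _ hj'
    have hne' : ∀ x, σ j ≠ g x := fun x h => by
      have h1 : j = g x := by
        rw [← hσ j, h, hσg x]
      exact hne x h1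
    rw [hfix j (hne b) (hne b'), hfix (σ j) (hne' b) (hne' b')]
  rw [e1, e2]
  ring

end Pool.Agent.W654.FF.Gsp
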